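import Pool.Agent.Helper84.BA.Defs1

/-!
# Project BA: calculus of finiteness (module B9)
-/

set_option autoImplicit false

namespace Pool.Agent.Helper94.BA

open Pool.Agent.Helper33.HM

universe u

section

variable {B : Type u} [CompleteBooleanAlgebra B]

theorem finV_mono {x y : ℕ → B} (h : x ≤ y) : finV y ≤ finV x := by
  unfold finV
  exact iSup_mono fun m => iInf_mono fun n => iInf_mono fun _ => compl_le_compl (h n)

theorem finV_sup (x y : ℕ → B) : finV (x ⊔ y) = finV x ⊓ finV y := by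
  apply le_antisymm (le_inf (finV_mono le_sup_left) (finV_mono le_sup_right))
  unfold finV
  rw [iSup_inf_eq]
  refine iSup_le fun m => ?_
  rw [inf_iSup_eq]
  refine iSup_le fun m' => ?_
  refine le_iSup_of_le (max m m') (le_iInf fun n => le_iInf fun hn => ?_)
  rw [Pi.sup_apply, compl_sup]
  exact inf_le_inf (iInf_le_of_le n (iInf_le_of_le (le_trans (le_max_left m m') hn) le_rfl))
    (iInf_le_of_le n (iInf_le_of_le (le_trans (le_max_right m m') hn) le_rfl))

theorem finV_bot : finV (⊥ : ℕ → B) = ⊤ := by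
  refine le_antisymm le_top (le_iSup_of_le 0 (le_iInf fun n => le_iInf fun _ => ?_))
  rw [Pi.bot_apply, compl_bot]

theorem finV_finN (m : ℕ) : finV (finN m : ℕ → B) = ⊤ := by
  refine le_antisymm le_top (le_iSup_of_le m (le_iInf fun n => le_iInf fun hn => ?_))
  have : (finN m : ℕ → B) n = ⊥ := by
    unfold finN
    rw [if_neg (not_lt.mpr hn)]
  rw [this, compl_bot]

theorem finV_compl (x : ℕ → B) : (finV x)ᶜ = ⨅ m : ℕ, ⨆ n : ℕ, ⨆ _ : m ≤ n, x n := by
  unfold finV
  simp only [compl_iSup, compl_iInf, compl_compl]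

theorem finV_ext (x y : ℕ → B) : eqV x y ⊓ finV x ≤ finV y := by
  unfold finV eqV
  rw [inf_iSup_eq]
  refine iSup_le fun m => ?_
  refine le_iSup_of_le m (le_iInf fun n => le_iInf fun hn => ?_)
  refine le_trans (inf_le_inf (iInf_le _ n) (iInf_le_of_le n (iInf_le_of_le hn le_rfl))) ?_
  unfold iffV
  rw [le_compl_iff_disjoint_right, disjoint_iff]
  have h1 : (y n ⇨ x n) ⊓ y n ≤ x n := himp_inf_le
  apply le_bot_iff.mp
  calc (x n ⇨ y n) ⊓ (y n ⇨ x n) ⊓ (x n)ᶜ ⊓ y n
      ≤ x n ⊓ (x n)ᶜ := by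
        refine le_inf (le_trans ?_ h1) ?_
        · exact le_inf (inf_le_left.trans (inf_le_left.trans inf_le_right)) inf_le_right
        · exact inf_le_left.trans inf_le_right
    _ = ⊥ := inf_compl_self _

end

end Pool.Agent.Helper94.BA
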